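import Pool.Agent.helper83.SB.Spec
import Pool.Agent.helper83.SC.LO

/-! Row LOW: the lower inclusion from `CORE m`. -/

open scoped Pointwise ContDiff
open MeasureTheory Set Filter Topology

namespace Pool.Agent.helper83.SB

open Pool.Agent.helper83.SC

theorem LOW_of (hME : mem_extreme_chart_stmt) (hCV : chart_CV_stmt) (hEB : exists_basis_stmt) :
    LOW_stmt := by
  intro m hcore C hC S hS hL u hu U hU huU hSU
  have hu1 : ‖u‖ = 1 := mem_sphere_zero_iff_norm.1 hu.1
  obtain ⟨b, hb⟩ := hEB hu.1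
  have hCb : ∀ j, CV (chart b (C j)) := fun j => hCV b (hC j)
  obtain ⟨r, hr, hnear⟩ := LO_near b hU (by rw [hb]; exact huU)
  have hB : ∀ φ, Test φ → tsupport φ ⊆ Metric.ball 0 r → B φ (fun j => chart b (C j)) = 0 := by
    intro φ hφ hφr
    have h0 : ∫ v, lift b φ v ∂S = B φ (fun j => chart b (C j)) := hL b φ hφ
    rw [← h0]
    apply integral_eq_zero_of_ae
    have h1 : ∀ᵐ v ∂S, v ∉ U := by
      rw [ae_iff]; simpa using hSU
    have h2 : ∀ᵐ v ∂S, v ∈ Metric.sphere (0 : E (m + 1)) 1 := by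
      rw [ae_iff]; exact hS.2
    filter_upwards [h1, h2] with v hv1 hv2
    exact hnear φ hφr v (by simpa using hv2) hv1
  have hdim : ∀ (I : Finset (Fin m)) (W : Submodule ℝ (E m)),
      (∀ v ∈ W, ∀ i ∈ I, FlatAt (chart b (C i)) 0 v) → I.card + Module.finrank ℝ W ≤ m := by
    have h := (hME b hC (0 : E m)).1
    rw [UP_emb_zero, b.norm_eq_one, inv_one, one_smul, hb] at h
    exact h hu
  obtain ⟨I, W, hIW, hge⟩ := hcore (fun j => chart b (C j)) hCb r hr hB
  have := hdim I W hIW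
  omega

end Pool.Agent.helper83.SB
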