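import Pool.Agent.helper83.SB.Spec
import Pool.Agent.helper33.SC.UD
import Pool.Agent.helper41.SC.AL3

/-! Row MSR: joint integrability. -/

open scoped Pointwise ContDiff
open MeasureTheory Set Filter Topology

namespace Pool.Agent.helper83.SB

open Pool.Agent.helper83.SC

theorem MSR'_closed {m : ℕ} {φ : E m → ℝ} (hφ : Test φ) {f : ℝ → E m → ℝ}
    (hf : Continuous (fun q : ℝ × E m => f q.1 q.2)) {c : ℝ} (hc : 0 < c) :
    IsClosed {q : E m × ℝ | ∃ y, c ≤ φ y ∧ IsArgmin (f q.2) q.1 y} := by
  have hcpt : IsCompact {y | c ≤ φ y} := by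
    refine hφ.2.1.isCompact.of_isClosed_subset (isClosed_le continuous_const hφ.1.continuous) ?_
    intro y hy
    apply subset_tsupport
    rw [Function.mem_support]
    exact (lt_of_lt_of_le hc hy).ne'
  rw [← isSeqClosed_iff_isClosed]
  intro q q0 hq hlim
  choose y hy1 hy2 using hq
  obtain ⟨y0, hy0, k, hk, hlimy⟩ := hcpt.tendsto_subseq hy1
  refine ⟨y0, hy0, ?_⟩
  intro z
  have h1 : Tendsto (fun i => (q (k i)).1) atTop (𝓝 q0.1) :=
    ((continuous_fst.tendsto q0).comp hlim).comp hk.tendsto_atTop
  have h2 : Tendsto (fun i => (q (k i)).2) atTop (𝓝 q0.2) :=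
    ((continuous_snd.tendsto q0).comp hlim).comp hk.tendsto_atTop
  have h3 : Tendsto (fun i => f (q (k i)).2 (y (k i)) - inner ℝ (q (k i)).1 (y (k i))) atTop
      (𝓝 (f q0.2 y0 - inner ℝ q0.1 y0)) :=
    ((hf.tendsto (q0.2, y0)).comp (h2.prodMk_nhds hlimy)).sub (h1.inner hlimy)
  have h4 : Tendsto (fun i => f (q (k i)).2 z - inner ℝ (q (k i)).1 z) atTop
      (𝓝 (f q0.2 z - inner ℝ q0.1 z)) :=
    ((hf.tendsto (q0.2, z)).comp (h2.prodMk_nhds tendsto_const_nhds)).sub
      (h1.inner tendsto_const_nhds)
  exact le_of_tendsto_of_tendsto' h3 h4 fun i => hy2 (k i) z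

theorem MSR'_of (hUNQ : UNQ_stmt) (hPTC : PTC_stmt) (hCV : chart_CV_stmt) : MSR_stmt := by
  intro m b K hK φ hφ ε hε hε1
  obtain ⟨-, -, -, -, -, hembc, hembCV, -⟩ := hPTC b
  have hcK : Continuous (chart b K) := UD_continuous (hCV b hK)
  have hf : Continuous (fun q : ℝ × E m => ft b K q.1 q.2) := by
    unfold ft
    exact (hcK.comp continuous_snd).add (continuous_fst.mul (hembc.comp continuous_snd).norm)
  obtain ⟨M, hM⟩ : ∃ M, ∀ x, ‖φ x‖ ≤ M := hφ.2.1.exists_bound_of_continuous hφ.1.continuous
  have hM' : ∀ x, φ x ≤ M := fun x => (le_abs_self _).trans (hM x)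
  have hM0 : 0 ≤ M := (norm_nonneg _).trans (hM 0)
  set g : E m × ℝ → ℝ := fun q => sel φ (ft b K q.2) q.1 with hg
  -- measurability on `t > 0`
  have hmeas : Measurable ((univ ×ˢ Ioi (0 : ℝ) : Set (E m × ℝ)).indicator g) := by
    apply measurable_of_Ici
    intro c
    by_cases hc : 0 < c
    · have : (univ ×ˢ Ioi (0 : ℝ) : Set (E m × ℝ)).indicator g ⁻¹' Ici c =
          {q : E m × ℝ | ∃ y, c ≤ φ y ∧ IsArgmin (ft b K q.2) q.1 y} ∩ (univ ×ˢ Ioi (0 : ℝ)) := by
        ext ⟨p, t⟩
        simp only [mem_preimage, mem_Ici, mem_inter_iff, mem_prod, mem_univ, true_and, mem_Ioi]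
        constructor
        · intro h
          have ht : 0 < t := by
            by_contra ht
            rw [indicator_of_notMem (by simpa using ht)] at h
            linarith
          rw [indicator_of_mem (by simpa using ht)] at h
          refine ⟨?_, ht⟩
          have hne : sel φ (ft b K t) p ≠ 0 := by
            have h' : c ≤ sel φ (ft b K t) p := h
            linarith
          obtain ⟨y, hy⟩ : ∃ y, IsArgmin (ft b K t) p y := by
            by_contra hno
            push Not at hno
            apply hne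
            unfold sel
            have : {y | IsArgmin (ft b K t) p y} = ∅ := by
              ext y; simp [hno y]
            rw [this, image_empty, Real.sSup_empty]
          refine ⟨y, ?_, hy⟩
          have : {y | IsArgmin (ft b K t) p y} = {y} := by
            ext y'
            simp only [mem_singleton_iff]
            exact ⟨fun h' => hUNQ b hK t ht p y' y h' hy, fun h' => by rw [h']; exact hy⟩
          have h' : c ≤ sel φ (ft b K t) p := h
          unfold sel at h'
          rw [this, image_singleton, csSup_singleton] at h'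
          exact h'
        · rintro ⟨⟨y, hcy, hy⟩, ht⟩
          rw [indicator_of_mem (by simpa using ht)]
          have : {y | IsArgmin (ft b K t) p y} = {y} := by
            ext y'
            simp only [mem_singleton_iff]
            exact ⟨fun h' => hUNQ b hK t ht p y' y h' hy, fun h' => by rw [h']; exact hy⟩
          change c ≤ sel φ (ft b K t) p
          unfold sel
          rw [this, image_singleton, csSup_singleton]
          exact hcy
      rw [this]
      exact (MSR'_closed hφ hf hc).measurableSet.inter (MeasurableSet.univ.prod measurableSet_Ioi)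
    · have : (univ ×ˢ Ioi (0 : ℝ) : Set (E m × ℝ)).indicator g ⁻¹' Ici c = univ := by
        ext q
        simp only [mem_preimage, mem_Ici, mem_univ, iff_true]
        exact (not_lt.1 hc).trans
          (indicator_nonneg (fun q _ => AL3_sel_nonneg hφ.2.2 q.1) q)
      rw [this]
      exact MeasurableSet.univ
  -- the support
  obtain ⟨R, hR⟩ := hφ.2.1.isCompact.isBounded.subset_closedBall (0 : E m)
  obtain ⟨C, hC0, hC⟩ := subgr_bdd_of (hCV b hK) hembCV R
  set ν : Measure (E m × ℝ) := (volume : Measure (E m)).prod (volume.restrict (Ioc (0 : ℝ) ε)) with hν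
  have hae : ∀ᵐ q ∂ν, q.2 ∈ Ioc (0 : ℝ) ε := by
    have h1 : ∀ᵐ t ∂(volume.restrict (Ioc (0 : ℝ) ε)), t ∈ Ioc (0 : ℝ) ε :=
      ae_restrict_mem measurableSet_Ioc
    exact Measure.quasiMeasurePreserving_snd.ae h1
  have hsm : AEStronglyMeasurable g ν := by
    refine (hmeas.aestronglyMeasurable (μ := ν)).congr ?_
    filter_upwards [hae] with q hq
    rw [indicator_of_mem]
    exact ⟨mem_univ _, hq.1⟩
  have hfin : ν (Metric.closedBall 0 C ×ˢ Ioc (0 : ℝ) ε) < ⊤ := by
    rw [hν, Measure.prod_prod]
    refine ENNReal.mul_lt_top measure_closedBall_lt_top ?_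
    rw [Measure.restrict_apply_self, Real.volume_Ioc]
    exact ENNReal.ofReal_lt_top
  have hint : Integrable ((Metric.closedBall (0 : E m) C ×ˢ Ioc (0 : ℝ) ε).indicator
      (fun _ : E m × ℝ => M)) ν := by
    rw [integrable_indicator_iff (Metric.isClosed_closedBall.measurableSet.prod measurableSet_Ioc)]
    exact integrableOn_const hfin.ne
  refine hint.mono' hsm ?_
  filter_upwards [hae] with q hq
  have h0 : 0 ≤ g q := AL3_sel_nonneg hφ.2.2 q.1
  rw [Real.norm_eq_abs, abs_of_nonneg h0]
  by_cases hne : g q = 0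
  · rw [hne]
    exact indicator_nonneg (fun _ _ => hM0) q
  · obtain ⟨y, hy, hφy⟩ : ∃ y, IsArgmin (ft b K q.2) q.1 y ∧ φ y ≠ 0 := by
      by_contra hno
      push Not at hno
      apply hne
      have : ∀ y, IsArgmin (ft b K q.2) q.1 y → φ y = 0 := hno
      change sSup (φ '' {y | IsArgmin (ft b K q.2) q.1 y}) = 0
      rcases ({y | IsArgmin (ft b K q.2) q.1 y} : Set (E m)).eq_empty_or_nonempty with he | hn
      · rw [he, image_empty, Real.sSup_empty]
      · have : φ '' {y | IsArgmin (ft b K q.2) q.1 y} = {0} := by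
          apply Subset.antisymm
          · rintro _ ⟨y, hy, rfl⟩
            exact this y hy
          · rintro _ rfl
            obtain ⟨y, hy⟩ := hn
            exact ⟨y, hy, this y hy⟩
        rw [this, csSup_singleton]
    have hyR : ‖y‖ ≤ R := by
      have := hR (subset_tsupport φ (Function.mem_support.2 hφy))
      simpa using this
    have hp : ‖q.1‖ ≤ C := hC q.2 hq.1.le (hq.2.trans hε1) q.1 y hyR hy
    rw [indicator_of_mem]
    · exact AL3_sel_le hM0 hM' q.1
    · exact ⟨by simpa using hp, hq⟩

end Pool.Agent.helper83.SB
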