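import Pool.Agent.helper83.SB.Bridge
import Pool.Agent.helper83.SB.MSR

/-! The bridge without hypotheses: `CORE_stmt` implies the frozen statement S13995. -/

open scoped Pointwise ContDiff
open MeasureTheory Set Filter Topology

namespace Pool.Agent.helper83.SB

open Pool.Agent.helper83.SC

/-- `CORE m → Main m` for `m ≥ 1`. -/
theorem bridge_m : FIN_stmt :=
  bridge_of (MSR'_of (UNQ_of PTC_of (ARG_of PRJ_of (DIR'_of PRJ_of) PTC_of)) PTC_of chart_CV_of)

/-- The core theorem implies the frozen statement for every `n`. -/
theorem bridge (h : CORE_stmt) : ∀ n : ℕ, 1 ≤ n → Main n := fun n hn => bridge_m n hn (h n hn)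

end Pool.Agent.helper83.SB
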