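import Pool.Agent.helper83.SB.Spec
import Pool.Agent.helper3.SC.TC1

/-! Row DIR: direction and support function. -/

open scoped Pointwise ContDiff
open MeasureTheory Set Filter Topology

namespace Pool.Agent.helper83.SB

open Pool.Agent.helper83.SC

theorem DIR'_of (hPRJ : PRJ_stmt) : DIR_stmt := by
  intro n K hK z hz
  obtain ⟨h1, h2, -, -⟩ := hPRJ hK
  obtain ⟨hx, hd⟩ := h1 z
  set x := nst K z with hxdef
  set d := Metric.infDist z K with hddef
  have hn : ‖z - x‖ = d := by rw [← dist_eq_norm]; exact hd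
  have hdir : dir K z = d⁻¹ • (z - x) := by
    unfold dir
    rw [← hxdef, hn]
  have hnorm : ‖dir K z‖ = 1 := by
    rw [hdir, norm_smul, norm_inv, Real.norm_eq_abs, abs_of_pos hz, hn, inv_mul_cancel₀ hz.ne']
  have hzx : z = x + d • dir K z := by
    rw [hdir, smul_smul, mul_inv_cancel₀ hz.ne', one_smul]
    abel
  have hsup : inner ℝ x (dir K z) = hE K (dir K z) := by
    refine le_antisymm (TC1_le hK hx _) ?_
    obtain ⟨y, hy, hyv⟩ := TC1_exists hK (dir K z)
    rw [← hyv]
    have h3 := h2 z y hy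
    have h4 : inner ℝ y (dir K z) - inner ℝ x (dir K z) = d⁻¹ * inner ℝ (z - x) (y - x) := by
      rw [← inner_sub_left, hdir, inner_smul_right, real_inner_comm]
    have h5 : d⁻¹ * inner ℝ (z - x) (y - x) ≤ 0 :=
      mul_nonpos_of_nonneg_of_nonpos (by positivity) h3
    linarith
  refine ⟨hnorm, hzx, hsup, ?_, ?_⟩
  · intro w
    have h3 : inner ℝ z w = inner ℝ x w + d * inner ℝ (dir K z) w := by
      conv_lhs => rw [hzx]
      rw [inner_add_left, real_inner_smul_left]
    rw [h3]
    have h4 := TC1_le hK hx w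
    have h5 := real_inner_le_norm (dir K z) w
    rw [hnorm, one_mul] at h5
    have h6 := mul_le_mul_of_nonneg_left h5 hz.le
    linarith
  · have h3 : inner ℝ z (dir K z) = inner ℝ x (dir K z) + d * inner ℝ (dir K z) (dir K z) := by
      conv_lhs => rw [hzx]
      rw [inner_add_left, real_inner_smul_left, ← hzx]
    rw [h3, hsup, real_inner_self_eq_norm_sq, hnorm]
    ring

end Pool.Agent.helper83.SB
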