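import Pool.Agent.helper83.SB.Spec

/-! Row FIN: `CORE m → Main m`. -/

open scoped Pointwise ContDiff
open MeasureTheory Set Filter Topology

namespace Pool.Agent.helper83.SB

open Pool.Agent.helper83.SC

theorem FIN_of (hSHL : SHL_stmt) (hMXM : MXM_stmt) (hTCF : TCF_stmt) (hLOW : LOW_stmt)
    (hUPP : UPP_stmt) (hSUM : isBody_sum_stmt) : FIN_stmt := by
  intro m hm hcore C hC
  have hC' : ∀ i, IsBody (C i) := hC
  have hK : ∀ I : Finset (Fin m), IsBody (∑ i ∈ I, C i) := fun I => (hSUM I hC').1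
  obtain ⟨S, hS, hL, hT⟩ := hMXM hC'
  have := hS.1
  -- the second set
  have hE : {u : EuclideanSpace ℝ (Fin (m + 1)) |
        u ∈ Metric.sphere (0 : EuclideanSpace ℝ (Fin (m + 1))) 1 ∧
        ∀ I : Finset (Fin m), ∀ F : Set (EuclideanSpace ℝ (Fin (m + 1))),
          IsExtreme ℝ {v : EuclideanSpace ℝ (Fin (m + 1)) |
              ∀ x ∈ (∑ i ∈ I, C i), (∀ y ∈ (∑ i ∈ I, C i), inner ℝ y u ≤ inner ℝ x u) →
                ∀ y ∈ (∑ i ∈ I, C i), inner ℝ y v ≤ inner ℝ x v} F →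
          Convex ℝ F → u ∈ intrinsicInterior ℝ F →
          I.card ≤ Module.finrank ℝ (Submodule.orthogonal (Submodule.span ℝ F))}
      = extremeDirections C := by
    ext u
    constructor
    · rintro ⟨h1, h2⟩
      exact ⟨h1, fun I => (hTCF (hK I) I.card).1 (h2 I)⟩
    · rintro ⟨h1, h2⟩
      exact ⟨h1, fun I => (hTCF (hK I) I.card).2 (h2 I)⟩
  rw [hE]
  -- the limits
  have hlim : ∀ U : Set (E (m + 1)), IsOpen U → Tendsto
      (fun ε : ℝ => ∑ I : Finset (Fin m), (-1 : ℝ) ^ (m - I.card) *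
        ((volume {y : E (m + 1) | 0 < Metric.infDist y (∑ i ∈ I, C i) ∧
          Metric.infDist y (∑ i ∈ I, C i) ≤ ε ∧
          ∃ x ∈ (∑ i ∈ I, C i), dist y x = Metric.infDist y (∑ i ∈ I, C i) ∧
            (‖y - x‖⁻¹ • (y - x)) ∈ U}).toReal / ε)) (𝓝[>] 0)
      (𝓝 ((m.factorial : ℝ) * (S U).toReal)) := by
    intro U hU
    have h1 := hT U hU.measurableSet
    refine h1.congr fun ε => ?_
    refine Finset.sum_congr rfl fun I _ => ?_
    rw [(hSHL (hK I) ε).2.2.2.2 U hU.measurableSet]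
  have hfac : (0 : ℝ) < (m.factorial : ℝ) := by exact_mod_cast m.factorial_pos
  apply Subset.antisymm
  · rintro u ⟨hu, hpos⟩
    by_contra hcl
    obtain ⟨U', hU', huU', hSU'⟩ := hUPP hC' hS hL hu (U := (closure (extremeDirections C))ᶜ)
      isClosed_closure.isOpen_compl hcl (fun v hv hve => hv (subset_closure hve))
    obtain ⟨L, hLpos, hLt⟩ := hpos U' hU' huU'
    have h2 := tendsto_nhds_unique hLt (hlim U' hU')
    rw [hSU', ENNReal.toReal_zero, mul_zero] at h2
    exact hLpos.ne' h2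
  · intro u hu
    have hsph : u ∈ Metric.sphere (0 : E (m + 1)) 1 := by
      have hsub : extremeDirections C ⊆ Metric.sphere (0 : E (m + 1)) 1 := fun v hv => hv.1
      exact closure_minimal hsub Metric.isClosed_sphere hu
    refine ⟨hsph, fun U hU huU => ⟨(m.factorial : ℝ) * (S U).toReal, ?_, hlim U hU⟩⟩
    obtain ⟨v, hvU, hvE⟩ := mem_closure_iff.1 hu U hU huU
    have h3 := hLOW hcore hC' hS hL hvE hU hvU
    exact mul_pos hfac (ENNReal.toReal_pos h3 (measure_ne_top S U))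

end Pool.Agent.helper83.SB
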