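import Pool.Agent.helper83.SB.Spec
import Pool.Agent.helper3.SC.TC1

/-! Row TCF: the frozen form of the touching cone condition. -/

open scoped Pointwise ContDiff
open MeasureTheory Set Filter Topology

namespace Pool.Agent.helper83.SB

open Pool.Agent.helper83.SC

variable {n : ℕ}

/-- the normal cone of the face in the direction `u` -/
def TCFN (K : Set (E n)) (u : E n) : Set (E n) :=
  {v : E n | ∀ x ∈ K, (∀ y ∈ K, inner ℝ y u ≤ inner ℝ x u) → ∀ y ∈ K, inner ℝ y v ≤ inner ℝ x v}

theorem TCF_mem {K : Set (E n)} (hK : IsBody K) {u v : E n} :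
    v ∈ TCFN K u ↔ ∀ x ∈ K, inner ℝ x u = hE K u → inner ℝ x v = hE K v := by
  constructor
  · intro h x hx hxu
    have h1 := h x hx (fun y hy => by rw [hxu]; exact TC1_le hK hy u)
    refine le_antisymm (TC1_le hK hx v) ?_
    obtain ⟨y, hy, hyv⟩ := TC1_exists hK v
    rw [← hyv]
    exact h1 y hy
  · intro h x hx hxu y hy
    have h1 : inner ℝ x u = hE K u := by
      refine le_antisymm (TC1_le hK hx u) ?_
      obtain ⟨y, hy, hyv⟩ := TC1_exists hK u
      rw [← hyv]
      exact hxu y hy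
    rw [h x hx h1]
    exact TC1_le hK hy v

theorem TCF_sub {K : Set (E n)} (hK : IsBody K) {u x : E n} (hx : x ∈ K)
    (hxu : inner ℝ x u = hE K u) : TCFN K u ⊆ normalCone K x := by
  intro v hv
  exact (TC1_mem_iff hK hx v).2 ((TCF_mem hK).1 hv x hx hxu)

theorem TCF_ext {K : Set (E n)} (hK : IsBody K) {u x : E n} (hx : x ∈ K)
    (hxu : inner ℝ x u = hE K u) : IsExtreme ℝ (normalCone K x) (TCFN K u) := by
  refine ⟨TCF_sub hK hx hxu, ?_⟩
  intro a ha c hc v hv hvs
  obtain ⟨α, β, hα, hβ, hαβ, rfl⟩ := hvs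
  rw [TCF_mem hK] at hv ⊢
  intro x' hx' hx'u
  have h1 := hv x' hx' hx'u
  have h2 := hv x hx hxu
  have h3 := (TC1_mem_iff hK hx a).1 ha
  have h4 := (TC1_mem_iff hK hx c).1 hc
  have h5 := TC1_le hK hx' a
  have h6 := TC1_le hK hx' c
  rw [← h2, inner_add_right, inner_add_right, inner_smul_right, inner_smul_right,
    inner_smul_right, inner_smul_right, h3, h4] at h1
  refine le_antisymm h5 ?_
  by_contra hlt
  push Not at hlt
  have h7 := mul_lt_mul_of_pos_left hlt hα
  have h8 := mul_le_mul_of_nonneg_left h6 hβ.le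
  linarith

theorem TCF_of : TCF_stmt := by
  intro n K hK u k
  obtain ⟨x, hx, hxu⟩ := TC1_exists hK u
  have huN : u ∈ normalCone K x := (TC1_mem_iff hK hx u).2 hxu
  -- all touching cones span the same space
  have hall : ∀ T, IsTouchingCone K u T → Submodule.span ℝ T = TC1_W K x u huN := by
    rintro T ⟨⟨x', hx', hT⟩, _, huT⟩
    have huN' : u ∈ normalCone K x' := hT.subset (intrinsicInterior_subset huT)
    rw [TC1_span huN' hT huT]
    ext v
    rw [TC1_W_iff_flat hK hx' huN', TC1_W_iff_flat hK hx huN]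
  constructor
  · intro h
    obtain ⟨T, hT⟩ := TC1_exists_cone hx huN
    refine ⟨T, hT, ?_⟩
    obtain ⟨⟨x', hx', hTe⟩, hTc, huT⟩ := hT
    refine h T ?_ hTc huT
    have huN' : u ∈ normalCone K x' := hTe.subset (intrinsicInterior_subset huT)
    have hx'u := (TC1_mem_iff hK hx' u).1 huN'
    change IsExtreme ℝ (TCFN K u) T
    refine hTe.mono (TCF_sub hK hx' hx'u) ?_
    intro v hv
    rw [TCF_mem hK]
    intro x'' hx'' hx''u
    have hv1 : v ∈ TC1_W K x' u huN' := by
      rw [← TC1_span huN' hTe huT]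
      exact Submodule.subset_span hv
    obtain ⟨ε, hε, -, h2⟩ := hv1
    have h3 := (TC1_mem_iff hK hx' _).1 h2
    have h4 := TC1_le hK hx'' (u - ε • v)
    rw [← h3, inner_sub_right, inner_sub_right, inner_smul_right, inner_smul_right, hx'u,
      hx''u] at h4
    have h5 := (TC1_mem_iff hK hx' v).1 (hTe.subset hv)
    refine le_antisymm (TC1_le hK hx'' v) ?_
    rw [← h5]
    have h6 : ε * inner ℝ x' v ≤ ε * inner ℝ x'' v := by linarith
    exact le_of_mul_le_mul_left h6 hε
  · rintro ⟨T, hT, hk⟩ F hF hFc huF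
    have hF' : IsTouchingCone K u F :=
      ⟨⟨x, hx, (TCF_ext hK hx hxu).trans hF⟩, hFc, huF⟩
    rw [hall F hF', ← hall T hT]
    exact hk

end Pool.Agent.helper83.SB
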