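import Pool.Agent.helper83.SB.Lib
import Pool.Agent.helper83.SB.LOW
import Pool.Agent.helper83.SB.TCF
import Pool.Agent.helper83.SB.FIN
import Pool.Agent.helper83.SB.DIR
import Pool.Agent.helper77.SB.DEC
import Pool.Agent.helper95.SB.SHL
import Pool.Agent.helper13.SB.UPP
import Pool.Agent.helper13.SB.MXM
import Pool.Agent.helper18.SB.MNA
import Pool.Agent.helper30.SB.ONE
import Pool.Agent.helper39.SB.AVG
import Pool.Agent.helper39.SB.DER
import Pool.Agent.helper39.SB.MLE
import Pool.Agent.helper41.SB.SAM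
import Pool.Agent.helper71.SB.SHA
import Pool.Agent.helper76.SB.ARG
import Pool.Agent.helper78.SB.PTC
import Pool.Agent.helper79.SB.PRJ
import Pool.Agent.helper81.SB.MLS
import Pool.Agent.helper85.SB.SHF
import Pool.Agent.helper93.SB.LFT
import Pool.Agent.helper96.SB.UNQ

/-! The bridge: `CORE m → Main m`. -/

open scoped Pointwise ContDiff
open MeasureTheory Set Filter Topology

namespace Pool.Agent.helper83.SB

open Pool.Agent.helper83.SC

theorem bridge_of (hMSR : MSR_stmt) : FIN_stmt := by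
  have hDIR : DIR_stmt := DIR'_of PRJ_of
  have hSHL : SHL_stmt := SHL_of PRJ_of hDIR
  have hDEC : DEC_stmt := DEC_of
  have hARG : ARG_stmt := ARG_of PRJ_of hDIR PTC_of
  have hSHA : SHA_stmt := SHA_of PTC_of hDIR
  have hUNQ : UNQ_stmt := UNQ_of PTC_of hARG
  have hDER : DER_stmt := DER_of PRJ_of
  have hONE : ONE_stmt := ONE_of PTC_of hSHL hARG hSHA hUNQ hDER
  have hSHF : SHF_stmt := SHF_of hSHL PTC_of LFT_of hONE hMSR
  have hMNA : MNA_stmt := MNA_of lib_Di lib_Mo lib_TA chart_CV_of PTC_of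
  have hMLS : MLS_stmt := MLS_of MLE_of
  have hSAM : SAM_stmt := SAM_of hSHL LFT_of hSHF hMNA AVG_of hMLS hDEC
  have hMXM : MXM_stmt := MXM_of hSAM hMLS LFT_of lib_NN isBody_sum_of chart_CV_of
  have hLOW : LOW_stmt := @LOW_of lib_ME chart_CV_of exists_basis_of
  have hUPP : UPP_stmt := @UPP_of lib_ME lib_CU chart_CV_of exists_basis_of
  exact FIN_of hSHL hMXM TCF_of hLOW hUPP isBody_sum_of

end Pool.Agent.helper83.SB
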