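import Pool.Agent.helper83.SC.Defs

/-!
# MP_d2d7b9_gt: the interface between the analytic part (sn:) and the bridge (sb:)

`CORE m`: if the mixed Monge-Ampere measure of `m` convex functions on `ℝ^m` vanishes near `0`, then
for some set `I` of indices the functions `F i`, `i ∈ I`, have a common space `W` of flat directions
at `0` with `dim W + |I| ≥ m + 1`.
-/

open scoped Pointwise ContDiff
open MeasureTheory Set Filter Topology

namespace Pool.Agent.helper83.SB

open Pool.Agent.helper83.SC

/-- The core theorem in dimension `m`. -/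
def CORE (m : ℕ) : Prop :=
  ∀ F : Fin m → E m → ℝ, (∀ j, CV (F j)) → ∀ r : ℝ, 0 < r →
    (∀ φ : E m → ℝ, Test φ → tsupport φ ⊆ Metric.ball 0 r → B φ F = 0) →
    ∃ (I : Finset (Fin m)) (W : Submodule ℝ (E m)),
      (∀ v ∈ W, ∀ i ∈ I, FlatAt (F i) 0 v) ∧ m + 1 ≤ Module.finrank ℝ W + I.card

/-- The core theorem in all dimensions. -/
def CORE_stmt : Prop := ∀ m : ℕ, 1 ≤ m → CORE m

end Pool.Agent.helper83.SB
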