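import Pool.Agent.helper83.SB.Core
import Pool.Agent.helper83.SC.Stmt

/-!
# MP_d2d7b9_gt, bridge (prefix sb:): definitions

Local parallel sets: the shells of a convex body, the nearest point, the direction, and the measure
`rho K ε` (the volume of the part of the shell seen in given directions).
-/

open scoped Pointwise ContDiff
open MeasureTheory Set Filter Topology

namespace Pool.Agent.helper83.SB

open Pool.Agent.helper83.SC

/-- The shell `{z : 0 < d(z, K) ≤ ε}`. -/
def shell {n : ℕ} (K : Set (E n)) (ε : ℝ) : Set (E n) :=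
  {z | 0 < Metric.infDist z K ∧ Metric.infDist z K ≤ ε}

open Classical in
/-- The nearest point of `K`. -/
noncomputable def nst {n : ℕ} (K : Set (E n)) (z : E n) : E n :=
  if h : ∃ x ∈ K, dist z x = Metric.infDist z K then h.choose else z

/-- The direction from the nearest point of `K` to `z`. -/
noncomputable def dir {n : ℕ} (K : Set (E n)) (z : E n) : E n :=
  ‖z - nst K z‖⁻¹ • (z - nst K z)

/-- The volume of the part of the shell that is seen in given directions. -/
noncomputable def rho {n : ℕ} (K : Set (E n)) (ε : ℝ) : Measure (E n) :=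
  (volume.restrict (shell K ε)).map (dir K)

/-- The point with chart coordinates `(p, s)`. -/
noncomputable def pt {m : ℕ} (b : OrthonormalBasis (Fin (m + 1)) ℝ (E (m + 1))) (p : E m) (s : ℝ) :
    E (m + 1) := (∑ i : Fin m, p i • b i.castSucc) + s • b (Fin.last m)

/-- The support function of `K + t • (unit ball)` in the chart. -/
noncomputable def ft {m : ℕ} (b : OrthonormalBasis (Fin (m + 1)) ℝ (E (m + 1)))
    (K : Set (E (m + 1))) (t : ℝ) (y : E m) : ℝ := chart b K y + t * ‖emb b y‖

/-- The chart integrals of `S` are given by the functional `Λ` on the test functions. -/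
def Loc {m : ℕ} (S : Measure (E (m + 1)))
    (Λ : OrthonormalBasis (Fin (m + 1)) ℝ (E (m + 1)) → (E m → ℝ) → ℝ) : Prop :=
  ∀ (b : OrthonormalBasis (Fin (m + 1)) ℝ (E (m + 1))) (φ : E m → ℝ), Test φ →
    ∫ v, lift b φ v ∂S = Λ b φ

/-- Finite measures carried by the unit sphere. -/
def Sph {n : ℕ} (S : Measure (E n)) : Prop :=
  IsFiniteMeasure S ∧ S (Metric.sphere (0 : E n) 1)ᶜ = 0

end Pool.Agent.helper83.SB
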