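import Pool.Agent.helper83.SC.Wire

/-! The statements of the SC library that the bridge uses, without hypotheses. -/

open scoped Pointwise ContDiff
open MeasureTheory Set Filter Topology

namespace Pool.Agent.helper83.SB

open Pool.Agent.helper83.SC

theorem lib_SI : sel_integrable_stmt :=
  sel_integrable_of ae_argmin_unique_of alexandrov_smooth_of exists_smooth_of (loc_lip_of loc_bdd_of)
    (tendsto_diag_of (loc_lip_of loc_bdd_of))

theorem lib_TA : tendsto_A_stmt :=
  tendsto_A_of ae_argmin_unique_of lib_SI (loc_lip_of loc_bdd_of)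
    (tendsto_diag_of (loc_lip_of loc_bdd_of))

theorem lib_AS : A_smooth_stmt :=
  A_smooth_of alexandrov_smooth_of lib_TA hess_add_of hess_normSq_of continuous_hess_of

theorem lib_BS : B_smooth_stmt :=
  B_smooth_of mD_polar_of hess_add_of hess_sum_of continuous_hess_of lib_AS

theorem lib_TB : tendsto_B_stmt := tendsto_B_of lib_TA

theorem lib_NN : B_nonneg_stmt := B_nonneg_of mD_nonneg_of hess_psd_of exists_smooth_of lib_BS lib_TB

theorem lib_Di : B_diag_stmt := B_diag_of mD_diag_of exists_smooth_of lib_TA lib_AS lib_BS lib_TB

theorem lib_Mo : B_mono_stmt :=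
  B_mono_of mD_mono_of hess_psd_of hess_add_of continuous_hess_of exists_smooth_of lib_BS lib_TB

theorem lib_ME : mem_extreme_chart_stmt :=
  mem_extreme_chart_of (mem_extreme_iff_of touching_span_of flat_sum_of isBody_sum_of hE_facts_of)
    hE_facts_of flat_submodule_of

theorem lib_CU : core_upper_stmt := by
  have hUS : B_update_smul_stmt :=
    B_update_smul_of mD_update_smul_of hess_smul_of lib_BS lib_TB exists_smooth_of
  have hMul : B_mul_stmt := B_mul_of hUS
  have hLe : B_le_A_stmt :=
    B_le_A_of mD_le_det_of hess_psd_of hess_sum_of continuous_hess_of exists_smooth_of lib_TA lib_AS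
      lib_BS lib_TB
  have hNP : null_piece_stmt :=
    null_piece_of (slice_small_of (loc_lip_of loc_bdd_of)) volume_le_of_slices_of subgr_compact_of
      subgr_bdd_of (exists_test_subgr_of subgr_compact_of) piece_closed_of hMul hLe
  exact @core_upper_of flat_sum_of mem_piece_of hNP

end Pool.Agent.helper83.SB
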