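import Pool.Agent.helper83.SB.Defs

/-!
# MP_d2d7b9_gt, bridge (prefix sb:): CORE ⟹ S13995, the rows

Every row: file `Pool/Agent/<seat>/SB/<ROW>.lean`, `namespace Pool.Agent.helper83.SB`, theorem
`<ROW>_of : (the statements used, as hypotheses) → <ROW>_stmt`.  Everything in `Pool/Agent/*/SC/` may
be imported (all modules of `helper83.SC.Stmt` are proved there: e.g. `helper21.SC.CH1` (coordinates,
`CH1_inner`, `CH1_coord_comb`, `CH1_mp`), `helper18.SC.CH2` (`hE_facts_of`, ...), `helper18.SC.UP`,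
`helper83.SC.LO` (`LO_rep`, `LO_near`), `helper3.SC.TC1`).
-/

open scoped Pointwise ContDiff
open MeasureTheory Set Filter Topology

set_option linter.unusedVariables false

namespace Pool.Agent.helper83.SB

open Pool.Agent.helper83.SC

/-! ## Part 1: nearest points and shells -/

/-- **PRJ** (nearest points).  Existence: compactness (`IsCompact.exists_infDist_eq_dist`), so
`nst K z` is a nearest point (`Exists.choose_spec`).  Variational inequality:
`norm_eq_iInf_iff_real_inner_le_zero` or by hand: for `y ∈ K`, `x = nst K z` and `θ ∈ (0,1]`,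
`‖z - x‖² ≤ ‖z - x - θ(y - x)‖²`, divide by `θ`, `θ → 0`.  Uniqueness: add the two variational
inequalities of `x, x'` : `‖x - x'‖² ≤ 0`.  `nst K` is 1-Lipschitz: add the inequalities of
`(z, x)` at `x'` and of `(z', x')` at `x`: `‖x - x'‖² ≤ ⟨z - z', x - x'⟩`. -/
def PRJ_stmt : Prop := ∀ {n : ℕ} {K : Set (E n)}, IsBody K →
  (∀ z, nst K z ∈ K ∧ dist z (nst K z) = Metric.infDist z K) ∧
  (∀ z, ∀ y ∈ K, inner ℝ (z - nst K z) (y - nst K z) ≤ 0) ∧
  (∀ z x, x ∈ K → dist z x = Metric.infDist z K → x = nst K z) ∧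
  Continuous (nst K)

/-- **DIR** (direction and support function).  With `x = nst K z`, `d = infDist z K = ‖z - x‖ > 0`,
`ν = dir K z = d⁻¹ • (z - x)`: norm one; `z = x + d • ν`; `⟨x, ν⟩ = h_K(ν)` because of the variational
inequality (`⟨y, z - x⟩ ≤ ⟨x, z - x⟩` for `y ∈ K`, so `x` maximizes `⟨·, ν⟩`);
`⟨z, w⟩ = ⟨x, w⟩ + d ⟨ν, w⟩ ≤ h_K(w) + d ‖w‖`. -/
def DIR_stmt : Prop := ∀ {n : ℕ} {K : Set (E n)}, IsBody K → ∀ z, 0 < Metric.infDist z K →
  ‖dir K z‖ = 1 ∧ z = nst K z + Metric.infDist z K • dir K z ∧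
  inner ℝ (nst K z) (dir K z) = hE K (dir K z) ∧
  (∀ w, inner ℝ z w ≤ hE K w + Metric.infDist z K * ‖w‖) ∧
  inner ℝ z (dir K z) = hE K (dir K z) + Metric.infDist z K

/-- **SHL** (the shell measures).  `infDist` is continuous, so the shell is measurable; it is bounded
(`K` bounded), so its volume is finite; `dir K` is measurable because `nst K` is continuous; the
nearest point is unique, so the two descriptions of the set agree: `Measure.map_apply`,
`Measure.restrict_apply`. -/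
def SHL_stmt : Prop := ∀ {n : ℕ} {K : Set (E n)}, IsBody K → ∀ ε : ℝ,
  MeasurableSet (shell K ε) ∧ volume (shell K ε) < ⊤ ∧ Measurable (dir K) ∧ Sph (rho K ε) ∧
  ∀ U : Set (E n), MeasurableSet U → rho K ε U = volume {y : E n | 0 < Metric.infDist y K ∧
    Metric.infDist y K ≤ ε ∧ ∃ x ∈ K, dist y x = Metric.infDist y K ∧ (‖y - x‖⁻¹ • (y - x)) ∈ U}

/-- **PTC** (coordinates).  See `CH1_coord_comb`, `CH1_inner`, `LO_rep`, `UP_emb_inner`. -/
def PTC_stmt : Prop := ∀ {m : ℕ} (b : OrthonormalBasis (Fin (m + 1)) ℝ (E (m + 1))),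
  (∀ p s, coord b (pt b p s) = (p, s)) ∧
  (∀ z, pt b (coord b z).1 (coord b z).2 = z) ∧
  (∀ p s y, inner ℝ (pt b p s) (emb b y) = inner ℝ p y + s) ∧
  (∀ y, coord b (emb b y) = (y, 1)) ∧
  (∀ y, 1 ≤ ‖emb b y‖) ∧ Continuous (emb b) ∧
  CV (fun y => ‖emb b y‖) ∧
  (∀ v : E (m + 1), (coord b v).2 ≠ 0 →
    v = (coord b v).2 • emb b ((coord b v).2⁻¹ • (coord b v).1)) ∧
  Continuous (coord b) ∧ (∀ v w, coord b (v + w) = coord b v + coord b w) ∧
  (∀ (c : ℝ) v, coord b (c • v) = c • coord b v)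

/-- **LFT** (the functions `lift b φ`).  On `{s > 0}` (open) `lift b φ v = s φ(s⁻¹ v')` is continuous,
elsewhere it is `0`: measurable (`Measurable.ite`).  On the unit sphere `0 < s ≤ 1` or `0`, so
`|lift b φ v| ≤ sup |φ|`. -/
def LFT_stmt : Prop := ∀ {m : ℕ} (b : OrthonormalBasis (Fin (m + 1)) ℝ (E (m + 1))) {φ : E m → ℝ},
  Test φ → Measurable (lift b φ) ∧ (∀ v, 0 ≤ lift b φ v) ∧ (∃ C, ∀ v, ‖v‖ = 1 → lift b φ v ≤ C) ∧
    ∀ S : Measure (E (m + 1)), Sph S → Integrable (lift b φ) S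

/-- **ARG** (a minimizer gives a point of the shell).  Let `w₀ = emb b y`, `s = ft y - ⟨p,y⟩`,
`z = pt b p s`, `x = nst K z`, `d = ‖z - x‖`.  `Q(w) = h_K(w) + t‖w‖ - ⟨z,w⟩` is sublinear
(`hE_facts`), `Q(w₀) = 0`, and `Q ≥ 0` on `{w : w_last > 0}` (write `w = w_last • emb y'`; the argmin
inequality says `Q(emb y') ≥ 0`).  Hence `Q ≥ 0` everywhere: for `c > 0` large `(w + c w₀)_last > 0`,
`0 ≤ Q(w + c w₀) ≤ Q(w) + c Q(w₀) = Q(w)`.  (i) `d ≥ t`: `h_K(w₀) + t‖w₀‖ = ⟨z,w₀⟩ = ⟨x,w₀⟩ + ⟨z-x,w₀⟩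
≤ h_K(w₀) + d‖w₀‖`, and `‖w₀‖ ≥ 1`.  So `d > 0` and DIR applies: `⟨z,ν⟩ = h_K(ν) + d`, `Q(ν) ≥ 0` gives
`d ≤ t`.  (ii) `⟨z - x, w₀⟩ ≥ t ‖w₀‖ = ‖z-x‖ ‖w₀‖`: equality in Cauchy-Schwarz
(`inner_eq_norm_mul_iff_real`), so `ν = ‖w₀‖⁻¹ • w₀`. -/
def ARG_stmt : Prop := ∀ {m : ℕ} (b : OrthonormalBasis (Fin (m + 1)) ℝ (E (m + 1)))
  {K : Set (E (m + 1))}, IsBody K → ∀ t : ℝ, 0 < t → ∀ p y : E m, IsArgmin (ft b K t) p y →
    Metric.infDist (pt b p (ft b K t y - inner ℝ p y)) K = t ∧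
    dir K (pt b p (ft b K t y - inner ℝ p y)) = ‖emb b y‖⁻¹ • emb b y

/-- **SHA** (a point of the shell gives a minimizer).  `z = pt b p s`, `d = infDist z K`, `ν = dir K z`,
`ν_last > 0`, `y = ν_last⁻¹ • ν'`, so `ν = ν_last • emb b y`.  By DIR, `⟨z,w⟩ ≤ h_K(w) + d‖w‖` for all
`w`, with equality at `ν`, hence (homogeneity of `h_K`) at `emb b y`.  With
`⟨z, emb b y'⟩ = ⟨p,y'⟩ + s` this says `s ≤ ft y' - ⟨p,y'⟩` with equality at `y`. -/
def SHA_stmt : Prop := ∀ {m : ℕ} (b : OrthonormalBasis (Fin (m + 1)) ℝ (E (m + 1)))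
  {K : Set (E (m + 1))}, IsBody K → ∀ (p : E m) (s : ℝ), 0 < Metric.infDist (pt b p s) K →
    0 < (coord b (dir K (pt b p s))).2 →
    IsArgmin (ft b K (Metric.infDist (pt b p s) K)) p
      ((coord b (dir K (pt b p s))).2⁻¹ • (coord b (dir K (pt b p s))).1) ∧
    s = ft b K (Metric.infDist (pt b p s) K)
        ((coord b (dir K (pt b p s))).2⁻¹ • (coord b (dir K (pt b p s))).1) -
      inner ℝ p ((coord b (dir K (pt b p s))).2⁻¹ • (coord b (dir K (pt b p s))).1)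

/-- **UNQ** (for `t > 0` the minimizer is unique).  The minimal value `s` is the same for `y` and `y'`,
so ARG gives `‖emb y‖⁻¹ • emb y = ‖emb y'‖⁻¹ • emb y'`; compare the last coordinates, then the others
(`coord b (emb b y) = (y, 1)`). -/
def UNQ_stmt : Prop := ∀ {m : ℕ} (b : OrthonormalBasis (Fin (m + 1)) ℝ (E (m + 1)))
  {K : Set (E (m + 1))}, IsBody K → ∀ t : ℝ, 0 < t → ∀ p y y' : E m, IsArgmin (ft b K t) p y →
    IsArgmin (ft b K t) p y' → y = y'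

/-- **DER** (the distance along a vertical line).  `z = pt b p s`, `x = nst K z`, `d = ‖z - x‖ > 0`,
`ν = dir K z`, `z' = pt b p s' = z + (s' - s) • b_last`.  Upper bound: `infDist z' ≤ ‖z' - x‖`, and
`s' ↦ ‖z' - x‖` has the derivative `⟨ν, b_last⟩ = (coord b ν).2` at `s`.  Lower bound:
`infDist z' ≥ ⟨z' - x, ν⟩ = d + (s' - s) ⟨ν, b_last⟩` (for `y ∈ K`: `‖z' - y‖ ≥ ⟨z' - y, ν⟩ ≥ ⟨z' - x, ν⟩`
as `⟨y,ν⟩ ≤ h_K(ν) = ⟨x,ν⟩`).  Both bounds have the value `d` at `s' = s`: squeeze. -/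
def DER_stmt : Prop := ∀ {m : ℕ} (b : OrthonormalBasis (Fin (m + 1)) ℝ (E (m + 1)))
  {K : Set (E (m + 1))}, IsBody K → ∀ (p : E m) (s : ℝ), 0 < Metric.infDist (pt b p s) K →
    HasDerivAt (fun s' => Metric.infDist (pt b p s') K) (coord b (dir K (pt b p s))).2 s

/-- **ONE** (the shell formula on a vertical line).  Let `R = {s | 0 < infDist (pt p s) K ≤ ε,
0 < (coord (dir K (pt p s))).2}` (measurable), `T s = infDist (pt b p s) K`.  `T` is injective on `R`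
(SHA: `s` is the minimal value of `ft (T s) - ⟨p,·⟩`).  By SHA and ARG, `T '' R = {t ∈ (0, ε] | there is
a minimizer of ft t - ⟨p,·⟩}` (for `⊇` take `s = ft t y - ⟨p,y⟩`; the last coordinate of
`‖emb y‖⁻¹ • emb y` is positive).  By `integral_image_eq_integral_abs_deriv_smul` (DER, derivative
`ν_last > 0`), `∫_{T '' R} sel φ (ft t) p dt = ∫_R ν_last · sel φ (ft (T s)) p ds`, and by UNQ
`sel φ (ft (T s)) p = φ(y)` with `y = ν_last⁻¹ ν'`, so the integrand is `lift b φ (dir K (pt p s))`.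
Off `R` (in the shell) `lift = 0`; off `T '' R` `sel = sSup ∅ = 0`. -/
def ONE_stmt : Prop := ∀ {m : ℕ} (b : OrthonormalBasis (Fin (m + 1)) ℝ (E (m + 1)))
  {K : Set (E (m + 1))}, IsBody K → ∀ (φ : E m → ℝ), Test φ → ∀ (ε : ℝ) (p : E m),
    ∫ s : ℝ, (shell K ε).indicator (fun z => lift b φ (dir K z)) (pt b p s)
      = ∫ t in Ioc (0 : ℝ) ε, sel φ (ft b K t) p

/-- **MSR** (joint integrability).  For `c > 0` the set
`{(p,t) | ∃ y, c ≤ φ y ∧ IsArgmin (ft b K t) p y}` is closed in `E m × ℝ`: it is the projection along the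
compact set `{y | c ≤ φ y}` of the closed set given by `∀ z, ft t y - ⟨p,y⟩ ≤ ft t z - ⟨p,z⟩` (`ft` is
jointly continuous: `chart b K` is continuous as a convex function on `E m`, `CV`).  For `t > 0` it is
`{c ≤ sel φ (ft t) p}` (UNQ: the set of minimizers has at most one point; `sSup ∅ = 0`).  So
`(p,t) ↦ sel φ (ft b K t) p` is measurable on `E m × (0, ε]`.  It is bounded by `max φ`, and vanishes
unless `‖p‖ ≤ C` (`subgr_bdd_stmt`: `helper33.SC.UD`, with `g = ‖emb b ·‖`, `0 ≤ t ≤ 1`). -/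
def MSR_stmt : Prop := ∀ {m : ℕ} (b : OrthonormalBasis (Fin (m + 1)) ℝ (E (m + 1)))
  {K : Set (E (m + 1))}, IsBody K → ∀ (φ : E m → ℝ), Test φ → ∀ (ε : ℝ), 0 < ε → ε ≤ 1 →
    Integrable (fun q : E m × ℝ => sel φ (ft b K q.2) q.1)
      ((volume : Measure (E m)).prod (volume.restrict (Ioc (0 : ℝ) ε)))

/-- **SHF** (the shell formula).  `∫ lift b φ d(rho K ε) = ∫_{shell} lift b φ (dir K z) dz`
(`integral_map`), `= ∫_p ∫_s indicator (...) (pt b p s)` (`CH1_mp`: `coord b` is measure preserving and a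
homeomorphism with inverse `pt`; `integral_prod`, the integrand is integrable: bounded, measurable, zero
off the shell), `= ∫_p ∫_{t ∈ (0,ε]} sel φ (ft t) p` (ONE), `= ∫_{(0,ε]} A φ (ft t) dt` (MSR, Fubini:
`integral_integral_swap`). -/
def SHF_stmt : Prop := ∀ {m : ℕ} (b : OrthonormalBasis (Fin (m + 1)) ℝ (E (m + 1)))
  {K : Set (E (m + 1))}, IsBody K → ∀ (φ : E m → ℝ), Test φ → ∀ (ε : ℝ), 0 < ε → ε ≤ 1 →
    ∫ v, lift b φ v ∂(rho K ε) = ∫ t in Ioc (0 : ℝ) ε, A φ (ft b K t)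

/-! ## Part 2: the area measures -/

/-- **MLE** (comparison of measures on `E m`).  For `Z` compact, `Z ⊆ O` open there is a test function
`φ ≤ 1` with `φ = 1` on `Z` and `tsupport φ ⊆ O` (`exists_contDiff_...` / `exists_smooth...`), so
`μ Z ≤ ∫ φ dμ ≤ ∫ φ dν ≤ ν O`; outer regularity: `μ Z ≤ ν Z`; inner regularity: `μ ≤ ν`
(`Measure.le_iff`, `MeasurableSet.exists_lt_isCompact` / `measure_eq_iSup_isCompact`). -/
def MLE_stmt : Prop := ∀ {m : ℕ} {μ ν : Measure (E m)}, IsFiniteMeasure μ → IsFiniteMeasure ν →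
  (∀ φ : E m → ℝ, Test φ → ∫ x, φ x ∂μ ≤ ∫ x, φ x ∂ν) → μ ≤ ν

/-- **MLS** (comparison of measures on the sphere).  For a basis `b` put `μ' = UPν b μ`, `ν' = UPν b ν`
(`helper18.SC.UP`: `UPν b S = (S.withDensity (UPρ b)).map (UPπ b)`, finite by `UPν_finite`, and
`∫ φ dμ' = ∫ lift b φ dμ` by `UP_integral`).  MLE: `μ' ≤ ν'`.  For `A` measurable contained in the open
half space `{(coord b v).2 > 0}` and the unit sphere, `A = UPπ⁻¹ (UPπ '' A) ∩ (sphere ∩ half space)`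
(`v = ‖emb y‖⁻¹ • emb y`, `y = UPπ b v`), and `μ A = ∫ 1_A(‖emb y‖⁻¹ emb y) ‖emb y‖ dμ'(y)` because
`UPρ b v · ‖emb (UPπ b v)‖ = 1` there; so `μ A ≤ ν A`.  Finally the sphere is covered by the finitely
many half spaces of the bases obtained from the standard basis by permutations and signs (or: by
compactness; each `u` on the sphere is the last vector of some basis, `exists_basis_stmt`): cut `A` into
finitely many disjoint measurable pieces. -/
def MLS_stmt : Prop := ∀ {m : ℕ} {μ ν : Measure (E (m + 1))}, Sph μ → Sph ν →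
  (∀ (b : OrthonormalBasis (Fin (m + 1)) ℝ (E (m + 1))) (φ : E m → ℝ), Test φ →
    ∫ v, lift b φ v ∂μ ≤ ∫ v, lift b φ v ∂ν) → μ ≤ ν

/-- **MNA** (`t ↦ A φ (ft b K t)` is increasing and continuous from the right at `0`).  Monotone:
`B_diag` (`A φ f = B φ (fun _ => f)`) and `B_mono` (`ft t - ft s = (t - s)‖emb b ·‖` is convex).
Right continuity: by monotonicity it suffices to consider a sequence, `tendsto_A`.  (For `m = 0` the
statement is trivial: `B_diag` is fine for `m = 0` too.) -/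
def MNA_stmt : Prop := ∀ {m : ℕ} (b : OrthonormalBasis (Fin (m + 1)) ℝ (E (m + 1)))
  {K : Set (E (m + 1))}, IsBody K → ∀ (φ : E m → ℝ), Test φ →
    (∀ s t : ℝ, 0 ≤ s → s ≤ t → A φ (ft b K s) ≤ A φ (ft b K t)) ∧
    Tendsto (fun t : ℝ => A φ (ft b K t)) (𝓝[>] 0) (𝓝 (A φ (chart b K)))

/-- **AVG** (averages of a monotone function). `a` is monotone on `[0,∞)`, so integrable on `(0, ε]`;
`ε⁻¹ ∫_0^ε a = ∫_0^1 a(ε s) ds` is monotone in `ε`; and `l ≤ a(t) ≤ a(ε)` for `0 < t ≤ ε`, so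
`l ≤ average ≤ a(ε) → l`. -/
def AVG_stmt : Prop := ∀ (a : ℝ → ℝ) (l : ℝ), (∀ s t : ℝ, 0 ≤ s → s ≤ t → a s ≤ a t) →
  Tendsto a (𝓝[>] 0) (𝓝 l) →
    (∀ s t : ℝ, 0 < s → s ≤ t → s⁻¹ * ∫ x in Ioc (0 : ℝ) s, a x ≤ t⁻¹ * ∫ x in Ioc (0 : ℝ) t, a x) ∧
    Tendsto (fun s : ℝ => s⁻¹ * ∫ x in Ioc (0 : ℝ) s, a x) (𝓝[>] 0) (𝓝 l)

/-- **DEC** (a decreasing family of finite measures converges on all measurable sets).
`T k := T (1/(k+1)) ≤ T 1`, so `T k = (T 1).withDensity f_k`, `f_k = rnDeriv`, decreasing a.e.; put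
`S = (T 1).withDensity (⨅ k, f_k)`; `lintegral_iInf_ae` on `A` gives `T k A → S A`; for general `ε → 0`
squeeze by monotonicity.  Last part: `T ε = S + R ε` with `R ε = T ε - S` (`Measure.sub_add_cancel_of_le`),
`R ε univ → 0`, `|∫ g dR ε| ≤ C · R ε univ`. -/
def DEC_stmt : Prop := ∀ {n : ℕ} (T : ℝ → Measure (E n)), (∀ ε, 0 < ε → IsFiniteMeasure (T ε)) →
  (∀ ε ε' : ℝ, 0 < ε → ε ≤ ε' → ε' ≤ 1 → T ε ≤ T ε') →
  ∃ S : Measure (E n), IsFiniteMeasure S ∧ (∀ ε, 0 < ε → ε ≤ 1 → S ≤ T ε) ∧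
    (∀ U, MeasurableSet U → Tendsto (fun ε => (T ε U).toReal) (𝓝[>] 0) (𝓝 (S U).toReal)) ∧
    ∀ g : E n → ℝ, Measurable g → (∃ C, ∀ x, |g x| ≤ C) →
      Tendsto (fun ε => ∫ x, g x ∂(T ε)) (𝓝[>] 0) (𝓝 (∫ x, g x ∂S))

/-- **SAM** (the surface area measure).  `T ε := ENNReal.ofReal ε⁻¹ • rho K ε`.  By SHF
`∫ lift b φ dT ε = ε⁻¹ ∫_{(0,ε]} A φ (ft t) dt` for `ε ≤ 1`, which is increasing in `ε` and tends to
`A φ (chart b K)` (MNA, AVG).  MLS: `T ε ≤ T ε'` for `ε ≤ ε' ≤ 1`.  DEC gives `S`;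
`S sphereᶜ ≤ T 1 sphereᶜ = 0`; for the chart integrals apply DEC to `g = (sphere).indicator (lift b φ)`
(LFT: measurable, bounded), uniqueness of limits. -/
def SAM_stmt : Prop := ∀ {m : ℕ} {K : Set (E (m + 1))}, IsBody K →
  ∃ S : Measure (E (m + 1)), Sph S ∧ Loc S (fun b φ => A φ (chart b K)) ∧
    ∀ U, MeasurableSet U →
      Tendsto (fun ε : ℝ => (rho K ε U).toReal / ε) (𝓝[>] 0) (𝓝 (S U).toReal)

/-- **MXM** (the mixed area measure).  `S_I` := the measure of SAM for `∑_{i ∈ I} C i` (a body: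
`isBody_sum`; `chart b (∑ C i) = ∑ chart b (C i)`; for `I = ∅` both are `0`), `P` := the sum of `S_I` over
`m - |I|` even, `N` := the sum over `m - |I|` odd.  `∫ lift dP - ∫ lift dN = ∑ (-1)^(m-|I|) A φ (∑ chart)
= m! B φ (charts) ≥ 0` (`B_nonneg`), so `N ≤ P` (MLS); `S := (m!)⁻¹ • (P - N)`. -/
def MXM_stmt : Prop := ∀ {m : ℕ} {C : Fin m → Set (E (m + 1))}, (∀ i, IsBody (C i)) →
  ∃ S : Measure (E (m + 1)), Sph S ∧ Loc S (fun b φ => B φ (fun j => chart b (C j))) ∧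
    ∀ U, MeasurableSet U →
      Tendsto (fun ε : ℝ => ∑ I : Finset (Fin m), (-1 : ℝ) ^ (m - I.card) *
        ((rho (∑ i ∈ I, C i) ε U).toReal / ε)) (𝓝[>] 0) (𝓝 ((m.factorial : ℝ) * (S U).toReal))

/-! ## Part 3: touching cones, the two inclusions, the end -/

/-- **TCF** (the frozen form of the touching cone condition).  Let `N = {v | ...}` (the intersection of
the normal cones at the points of the face `F(K,u)`), `x ∈ F(K,u)`.  `N` is extreme in
`normalCone K x`: if `v = αa + βb ∈ N` (`a, b ∈ normalCone K x`, `α, β > 0`) and `x' ∈ F(K,u)` then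
`h(v) = ⟨x,v⟩ = αh(a) + βh(b) ≥ α⟨x',a⟩ + β⟨x',b⟩ = ⟨x',v⟩ = h(v)`, so `⟨x',a⟩ = h(a)`.
(→) if `T` is a touching cone (`IsTouchingCone K u T`, extreme in `normalCone K x'`), then `x' ∈ F(K,u)`
and `T ⊆ N`: by `TC1_span` a point `v ∈ T` is in `TC1_W`, so `u - εv ∈ normalCone K x'` for some `ε > 0`,
and for `x'' ∈ F(K,u)` `⟨x'',u - εv⟩ ≤ ⟨x',u - εv⟩` gives `⟨x'',v⟩ ≥ ⟨x',v⟩ = h(v)`; so `T` is extreme in
`N` (`IsExtreme.mono`); `TC1_exists_cone` gives such a `T`.  (←) if `F` is extreme in `N` it is extreme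
in `normalCone K x` (`IsExtreme.trans`), so it is a touching cone; by `TC1_span`, `TC1_W_iff_flat` all
touching cones have the same span (see the proof of `touching_span_of` in `helper3.SC.TC1`). -/
def TCF_stmt : Prop := ∀ {n : ℕ} {K : Set (E n)}, IsBody K → ∀ {u : E n} (k : ℕ),
  (∀ F : Set (E n), IsExtreme ℝ {v : E n | ∀ x ∈ K, (∀ y ∈ K, inner ℝ y u ≤ inner ℝ x u) →
      ∀ y ∈ K, inner ℝ y v ≤ inner ℝ x v} F → Convex ℝ F → u ∈ intrinsicInterior ℝ F →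
      k ≤ Module.finrank ℝ (Submodule.orthogonal (Submodule.span ℝ F))) ↔ DimPerpGE K u k

/-- **LOW** (the lower inclusion from `CORE m`): as in `helper83.SC.LO` (`lower_of`): chart with
`b_last = u` (`exists_basis`), `LO_near`, `mem_extreme_chart` at `y = 0`. -/
def LOW_stmt : Prop := ∀ {m : ℕ}, CORE m → ∀ {C : Fin m → Set (E (m + 1))}, (∀ i, IsBody (C i)) →
  ∀ {S : Measure (E (m + 1))}, Sph S → Loc S (fun b φ => B φ (fun j => chart b (C j))) →
  ∀ {u : E (m + 1)}, u ∈ extremeDirections C → ∀ {U : Set (E (m + 1))}, IsOpen U → u ∈ U → S U ≠ 0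

/-- **UPP** (the upper inclusion): as `upper_of` in `helper18.SC.UP`, with `Loc` instead of
`local_identity`. -/
def UPP_stmt : Prop := ∀ {m : ℕ} {C : Fin m → Set (E (m + 1))}, (∀ i, IsBody (C i)) →
  ∀ {S : Measure (E (m + 1))}, Sph S → Loc S (fun b φ => B φ (fun j => chart b (C j))) →
  ∀ {u : E (m + 1)}, u ∈ Metric.sphere (0 : E (m + 1)) 1 → ∀ {U : Set (E (m + 1))}, IsOpen U → u ∈ U →
  (∀ v ∈ U, v ∉ extremeDirections C) → ∃ U' : Set (E (m + 1)), IsOpen U' ∧ u ∈ U' ∧ S U' = 0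

/-- The frozen statement for one `n`. -/
def Main (n : ℕ) : Prop := ∀ C : Fin n → Set (EuclideanSpace ℝ (Fin (n + 1))),
    (∀ i, IsCompact (C i) ∧ Convex ℝ (C i) ∧ (C i).Nonempty) →
    {u : EuclideanSpace ℝ (Fin (n + 1)) |
      u ∈ Metric.sphere (0 : EuclideanSpace ℝ (Fin (n + 1))) 1 ∧
      ∀ U : Set (EuclideanSpace ℝ (Fin (n + 1))), IsOpen U → u ∈ U →
        ∃ L : ℝ, 0 < L ∧
          Filter.Tendsto
            (fun ε : ℝ => ∑ I : Finset (Fin n), (-1 : ℝ) ^ (n - I.card) *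
              ((MeasureTheory.volume
                {y : EuclideanSpace ℝ (Fin (n + 1)) |
                  0 < Metric.infDist y (∑ i ∈ I, C i) ∧
                  Metric.infDist y (∑ i ∈ I, C i) ≤ ε ∧
                  ∃ x ∈ (∑ i ∈ I, C i), dist y x = Metric.infDist y (∑ i ∈ I, C i) ∧
                    (‖y - x‖⁻¹ • (y - x)) ∈ U}).toReal / ε))
            (nhdsWithin (0 : ℝ) (Set.Ioi 0)) (nhds L)}
    = closure {u : EuclideanSpace ℝ (Fin (n + 1)) |
        u ∈ Metric.sphere (0 : EuclideanSpace ℝ (Fin (n + 1))) 1 ∧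
        ∀ I : Finset (Fin n), ∀ F : Set (EuclideanSpace ℝ (Fin (n + 1))),
          IsExtreme ℝ {v : EuclideanSpace ℝ (Fin (n + 1)) |
              ∀ x ∈ (∑ i ∈ I, C i), (∀ y ∈ (∑ i ∈ I, C i), inner ℝ y u ≤ inner ℝ x u) →
                ∀ y ∈ (∑ i ∈ I, C i), inner ℝ y v ≤ inner ℝ x v} F →
          Convex ℝ F → u ∈ intrinsicInterior ℝ F →
          I.card ≤ Module.finrank ℝ (Submodule.orthogonal (Submodule.span ℝ F))}

/-- **FIN**: `CORE m → Main m`.  MXM gives `S`; by SHL the sum in the frozen statement is the sum of MXM;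
the second set is `extremeDirections C` (TCF).  (⊆) `u` on the sphere, not in the closure: UPP with
`U` = the complement of the closure gives `U'` with `S U' = 0`, so the limit for `U'` is `0`, not
positive (`tendsto_nhds_unique`).  (⊇) the first set is closed in the obvious sense: for `u` in the
closure and `U` open, `u ∈ U`, there is an extreme direction in `U`, so `S U ≠ 0` (LOW), `L = m! S(U)`;
`u` is on the sphere because the sphere is closed. -/
def FIN_stmt : Prop := ∀ m : ℕ, 1 ≤ m → CORE m → Main m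

end Pool.Agent.helper83.SB
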